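import Pool.Agent.helper61.Y2.Spec
import Pool.Agent.helper61.YNull

set_option autoImplicit false

namespace H61.Y2

open H61.Yorioka Cardinal MeasureTheory

open scoped ENNReal

lemma Y0F_limSet_null {f : ℕ → ℕ} (hf : StrictMono f) {τ : ℕ → List Bool}
    (hτ : FarBelow f (ht τ)) : cantorMeasure (limSet τ) = 0 := by
  classical
  obtain ⟨m, hm⟩ := hτ 1
  have h1 : cantorMeasure {x | ∀ k, ∃ n ≥ k, x ∈ (if m ≤ n then cyl (τ n) else ∅)} = 0 := by
    apply measure_io_zero
    refine ne_top_of_le_ne_top ?_ (ENNReal.tsum_le_tsum (g := fun n => (2⁻¹ : ℝ≥0∞) ^ n) fun n => ?_)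
    · rw [ENNReal.tsum_geometric]; simp
    · split_ifs with hn
      · rw [measure_cyl]
        apply pow_le_pow_of_le_one zero_le (by simp)
        have h2 := hm n hn
        rw [pow_one] at h2
        exact (hf.le_apply).trans h2
      · simp
  refine measure_mono_null ?_ h1
  intro x hx k
  obtain ⟨n, hn, hx'⟩ := mem_limSet_iff.mp hx (max k m)
  refine ⟨n, (le_max_left _ _).trans hn, ?_⟩
  rw [if_pos ((le_max_right _ _).trans hn)]
  exact hx'

lemma Y0F_singleton_mem {f : ℕ → ℕ} (hf : StrictMono f) (x : ℕ → Bool) :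
    ({x} : Set (ℕ → Bool)) ∈ yoriokaIdeal f := by
  refine ⟨fun n => res x (f (n ^ n)), ?_, ?_⟩
  · intro k
    refine ⟨k + 1, fun n hn => ?_⟩
    simp only [ht, res_length]
    apply hf.monotone
    exact Nat.pow_le_pow_right (by omega) (by omega)
  · rintro _ rfl
    exact mem_limSet_iff.mpr fun m => ⟨m, le_rfl, isInit_res _ _⟩

theorem Y0F : Y0F_stmt := by
  intro f hf
  by_contra hcon
  push Not at hcon
  have hne : {κ | ∃ J : Set (Set (ℕ → Bool)), J ⊆ yoriokaIdeal f ∧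
      (∀ A ∈ yoriokaIdeal f, ∃ B ∈ J, A ⊆ B) ∧ κ = Cardinal.mk J}.Nonempty :=
    ⟨_, yoriokaIdeal f, subset_rfl, fun A hA => ⟨A, hA, subset_rfl⟩, rfl⟩
  obtain ⟨J, h1, h2, h3⟩ := csInf_mem hne
  have hcof : cof (yoriokaIdeal f) = Cardinal.mk J := h3
  rw [hcof] at hcon
  have hfin : J.Finite := Cardinal.lt_aleph0_iff_set_finite.mp hcon
  have hnull : cantorMeasure (⋃₀ J) = 0 := by
    rw [Set.sUnion_eq_biUnion]
    rw [measure_biUnion_null_iff hfin.countable]
    intro A hA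
    obtain ⟨σ, hσ, hAσ⟩ := h1 hA
    exact measure_mono_null hAσ (Y0F_limSet_null hf hσ)
  have huniv : ⋃₀ J = Set.univ := by
    apply Set.eq_univ_of_forall
    intro x
    obtain ⟨B, hB, hxB⟩ := h2 {x} (Y0F_singleton_mem hf x)
    exact ⟨B, hB, hxB rfl⟩
  rw [huniv, measure_univ] at hnull
  exact one_ne_zero hnull

end H61.Y2
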